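import Mathlib
import Pool.Agent.H798.BV.Stm4

set_option autoImplicit false

/-!
# MP_172a45_an (subtask 14806): the alternating inequality `S_AI1`

`‖∑_{S ⊆ B} (-1)^|S| |S|! ∏_{k ∈ S} l k‖ ≥ 1 - ∑_{k ∈ B} ‖l k‖` for `∑_{k ∈ B} ‖l k‖ ≤ 1`, by power series
majorants.
-/

open PowerSeries Finset

namespace Pool.Agent.H190.BV
open Pool.Agent.H798.BV

/-- Coefficientwise majorant. -/
def Maj (f : ℂ⟦X⟧) (F : ℝ⟦X⟧) : Prop := ∀ n, ‖coeff n f‖ ≤ coeff n F

/-- The geometric series. -/
noncomputable def G (a : ℝ) : ℝ⟦X⟧ := PowerSeries.mk (fun n => a ^ n)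

theorem G_eq (a : ℝ) : G a = 1 + C a * X * G a := by
  ext n
  rcases n with _ | n
  · simp [G, mul_assoc]
  · rw [map_add, mul_assoc, coeff_C_mul, coeff_succ_X_mul]
    simp [G, PowerSeries.coeff_one, pow_succ, mul_comm]

theorem G_mul (a : ℝ) : (1 - C a * X) * G a = 1 := by
  have := G_eq a
  linear_combination this

theorem deriv_V (a : ℝ) : derivative ℝ (X * G a) = G a * G a := by
  have h1 : derivative ℝ (G a) = C a * G a + C a * X * derivative ℝ (G a) := by
    conv_lhs => rw [G_eq a]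
    rw [map_add, Derivation.leibniz, Derivation.leibniz, derivative_X, derivative_C]
    simp only [smul_eq_mul, Derivation.map_one_eq_zero]
    ring
  have h2 := G_mul a
  have h3 : derivative ℝ (G a) = C a * (G a * G a) := by
    have : (1 - C a * X) * G a * derivative ℝ (G a) = G a * (C a * G a) := by
      linear_combination (G a) * h1
    rw [h2, one_mul] at this
    rw [this]; ring
  rw [Derivation.leibniz, derivative_X, h3]
  simp only [smul_eq_mul, mul_one]
  linear_combination (-(G a)) * h2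

theorem G_add (x μ : ℝ) : G (x + μ) = G x * (1 + C μ * X * G (x + μ)) := by
  have h1 := G_mul (x + μ)
  have h2 := G_mul x
  rw [map_add] at h1
  linear_combination (G x) * h1 - (G (x + μ)) * h2

theorem coeff_V (a : ℝ) (n : ℕ) : coeff (n + 1) (X * G a) = a ^ n := by
  rw [coeff_succ_X_mul]; simp [G]

theorem coeff_V_zero (a : ℝ) : coeff 0 (X * G a) = 0 := by
  simp

namespace Maj

theorem nonneg {f : ℂ⟦X⟧} {F : ℝ⟦X⟧} (h : Maj f F) (n : ℕ) : 0 ≤ coeff n F :=
  (norm_nonneg _).trans (h n)

theorem add {f g : ℂ⟦X⟧} {F G : ℝ⟦X⟧} (h : Maj f F) (h' : Maj g G) : Maj (f + g) (F + G) := by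
  intro n
  rw [map_add, map_add]
  exact (norm_add_le _ _).trans (add_le_add (h n) (h' n))

theorem cmul {f : ℂ⟦X⟧} {F : ℝ⟦X⟧} (h : Maj f F) (c : ℂ) : Maj (C c * f) (C ‖c‖ * F) := by
  intro n
  rw [coeff_C_mul, coeff_C_mul, norm_mul]
  exact mul_le_mul_of_nonneg_left (h n) (norm_nonneg _)

theorem neg {f : ℂ⟦X⟧} {F : ℝ⟦X⟧} (h : Maj f F) : Maj (-f) F := by
  intro n
  rw [map_neg, norm_neg]
  exact h n

theorem xmul {f : ℂ⟦X⟧} {F : ℝ⟦X⟧} (h : Maj f F) : Maj (X * f) (X * F) := by
  intro n
  rcases n with _ | n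
  · simp
  · rw [coeff_succ_X_mul, coeff_succ_X_mul]
    exact h n

theorem deriv {f : ℂ⟦X⟧} {F : ℝ⟦X⟧} (h : Maj f F) : Maj (derivative ℂ f) (derivative ℝ F) := by
  intro n
  rw [coeff_derivative, coeff_derivative, norm_mul]
  have : ‖((n : ℂ) + 1)‖ = (n : ℝ) + 1 := by
    have : ((n : ℂ) + 1) = (((n + 1 : ℕ)) : ℂ) := by push_cast; ring
    rw [this, Complex.norm_natCast]; push_cast; ring
  rw [this]
  exact mul_le_mul_of_nonneg_right (h _) (by positivity)

/-- The solution of `h = g + c v h` is majorised by the solution of `H = W + |c| V H` (`V(0) = 0`). -/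
theorem solve {g v h : ℂ⟦X⟧} {W V H : ℝ⟦X⟧} (c : ℂ) (hg : Maj g W) (hv : Maj v V)
    (hV0 : coeff 0 V = 0) (e1 : h = g + C c * (v * h)) (e2 : H = W + C ‖c‖ * (V * H)) : Maj h H := by
  have hv0 : coeff 0 v = 0 := by
    have := hv 0
    rw [hV0] at this
    exact norm_le_zero_iff.1 this
  intro n
  induction n using Nat.strong_induction_on with
  | _ n ih =>
    rw [e1, e2, map_add, map_add, coeff_C_mul, coeff_C_mul]
    refine (norm_add_le _ _).trans (add_le_add (hg n) ?_)
    rw [norm_mul]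
    refine mul_le_mul_of_nonneg_left ?_ (norm_nonneg _)
    rw [coeff_mul, coeff_mul]
    refine (norm_sum_le _ _).trans (Finset.sum_le_sum fun p hp => ?_)
    rw [norm_mul]
    rcases Nat.eq_zero_or_pos p.1 with h0 | h0
    · rw [h0, hv0, hV0]; simp
    · have hp' : p.1 + p.2 = n := Finset.HasAntidiagonal.mem_antidiagonal.1 hp
      have hlt : p.2 < n := by omega
      exact mul_le_mul (hv _) (ih _ hlt) (norm_nonneg _) (hv.nonneg _)

end Maj

variable {ι : Type*} [DecidableEq ι]

/-- The coefficient attached to `S`. -/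
noncomputable def aS (l : ι → ℂ) (S : Finset ι) : ℂ :=
  (-1 : ℂ) ^ S.card * (S.card.factorial : ℂ) * ∏ k ∈ S, l k

/-- `I_T(y) = ∑_{S ⊆ T} (-1)^|S| |S|! ∏_S l_k y^|S|`. -/
noncomputable def IT (l : ι → ℂ) (T : Finset ι) : ℂ⟦X⟧ :=
  ∑ S ∈ T.powerset, C (aS l S) * X ^ S.card

theorem aS_insert (l : ι → ℂ) (S : Finset ι) (k : ι) (hk : k ∉ S) :
    aS l (insert k S) = - (l k * (((S.card : ℂ) + 1) * aS l S)) := by
  unfold aS
  rw [Finset.card_insert_of_notMem hk, Finset.prod_insert hk, Nat.factorial_succ, pow_succ]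
  push_cast
  ring

theorem IT_insert (l : ι → ℂ) (T : Finset ι) (k : ι) (hk : k ∉ T) :
    IT l (insert k T) = IT l T - C (l k) * (X * (IT l T + X * derivative ℂ (IT l T))) := by
  unfold IT
  rw [Finset.sum_powerset_insert hk, sub_eq_add_neg]
  congr 1
  rw [map_sum, Finset.mul_sum, ← Finset.sum_add_distrib, Finset.mul_sum, Finset.mul_sum,
    ← Finset.sum_neg_distrib]
  refine Finset.sum_congr rfl fun S hS => ?_
  have hkS : k ∉ S := fun h => hk (Finset.mem_powerset.1 hS h)
  rw [aS_insert l S k hkS, Finset.card_insert_of_notMem hkS]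
  ext n
  have e1 : derivative ℂ (C (aS l S) * X ^ S.card : ℂ⟦X⟧)
      = C (aS l S) * ((S.card : ℂ⟦X⟧) * X ^ (S.card - 1)) := by
    rw [Derivation.leibniz, derivative_C, Derivation.leibniz_pow, derivative_X]
    simp [nsmul_eq_mul]
  rw [e1]
  congr 1
  rcases Nat.eq_zero_or_pos S.card with h0 | h0
  · rw [h0]; simp; ring
  · obtain ⟨m, hm⟩ : ∃ m, S.card = m + 1 := ⟨S.card - 1, by omega⟩
    rw [hm]
    simp only [Nat.add_sub_cancel, map_neg, map_mul, map_add, map_one, map_natCast]
    push_cast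
    ring

theorem exists_v (l : ι → ℂ) (T : Finset ι) :
    ∃ v : ℂ⟦X⟧, IT l T * v = X * (IT l T + X * derivative ℂ (IT l T)) ∧
      Maj v (X * G (∑ k ∈ T, ‖l k‖)) := by
  induction T using Finset.induction_on with
  | empty =>
    refine ⟨X, ?_, ?_⟩
    · simp [IT, aS]
    · intro n
      rcases n with _ | n
      · simp
      · rw [coeff_V]
        rcases n with _ | n
        · simp
        · simp [coeff_X]
  | insert k T hk ih =>
    obtain ⟨v, hv1, hv2⟩ := ih
    set c := l k with hc
    set x := ∑ k ∈ T, ‖l k‖ with hx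
    have hv0 : coeff 0 v = 0 := by
      have := hv2 0
      rw [coeff_V_zero] at this
      exact norm_le_zero_iff.1 this
    have hu : (1 - C c * v) * (1 - C c * v)⁻¹ = 1 := by
      apply PowerSeries.mul_inv_cancel
      have : constantCoeff v = 0 := by
        rw [← coeff_zero_eq_constantCoeff_apply]; exact hv0
      simp [this]
    set h : ℂ⟦X⟧ := derivative ℂ v * (1 - C c * v)⁻¹ with hh
    have e1 : h = derivative ℂ v + C c * (v * h) := by
      have : (1 - C c * v) * h = derivative ℂ v := by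
        rw [hh]; linear_combination (derivative ℂ v) * hu
      linear_combination this
    have hH : Maj h (G x * G (x + ‖c‖)) := by
      refine Maj.solve c (W := G x * G x) (V := X * G x) ?_ hv2 (coeff_V_zero x) e1 ?_
      · rw [← deriv_V]; exact hv2.deriv
      · have := G_add x ‖c‖
        linear_combination (G x) * this
    have hI := IT_insert l T k hk
    rw [← hv1, ← hc] at hI
    refine ⟨v + -(C c * (X * (X * h))), ?_, ?_⟩
    · have hD : derivative ℂ (IT l (insert k T))
          = derivative ℂ (IT l T) - C c * (IT l T * derivative ℂ v + v * derivative ℂ (IT l T)) := by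
        rw [hI, map_sub, Derivation.leibniz, derivative_C, Derivation.leibniz]
        simp only [smul_eq_mul, mul_zero, add_zero]
      rw [hD, hI]
      linear_combination (1 - C c * v) * hv1 + (- C c * X * X * IT l T) * e1
    · rw [Finset.sum_insert hk, add_comm, ← hc, ← hx]
      have e3 : X * G (x + ‖c‖) = X * G x + C ‖c‖ * (X * (X * (G x * G (x + ‖c‖)))) := by
        have := G_add x ‖c‖
        linear_combination X * this
      rw [add_comm ‖c‖ x, e3, add_comm (-_) v]
      exact hv2.add (hH.xmul.xmul.cmul c).neg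

omit [DecidableEq ι] in
theorem hasSum_IT (l : ι → ℂ) (T : Finset ι) :
    HasSum (fun n => coeff n (IT l T)) (∑ S ∈ T.powerset, aS l S) := by
  unfold IT
  simp only [map_sum]
  refine hasSum_sum fun S _ => ?_
  simp only [coeff_C_mul_X_pow]
  exact hasSum_ite_eq _ _

theorem bound (l : ι → ℂ) (T : Finset ι) (hT : ∑ k ∈ T, ‖l k‖ ≤ 1) :
    1 - ∑ k ∈ T, ‖l k‖ ≤ ‖∑ S ∈ T.powerset, aS l S‖ := by
  induction T using Finset.induction_on with
  | empty => simp [aS]
  | insert k T hk ih =>
    rw [Finset.sum_insert hk] at hT ⊢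
    set c := l k with hc
    set x := ∑ k ∈ T, ‖l k‖ with hx
    have hx0 : 0 ≤ x := Finset.sum_nonneg fun _ _ => norm_nonneg _
    have hc0 : 0 ≤ ‖c‖ := norm_nonneg _
    by_cases h1 : 1 ≤ x
    · refine le_trans ?_ (norm_nonneg _)
      linarith
    push Not at h1
    have ih' := ih (by linarith)
    obtain ⟨v, hv1, hv2⟩ := exists_v l T
    rw [← hx] at hv2
    -- the value of `v` at `1`
    have hVs : HasSum (fun n => coeff n (X * G x)) (1 - x)⁻¹ := by
      have := hasSum_geometric_of_lt_one hx0 h1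
      rw [← hasSum_nat_add_iff' 1]
      simp only [coeff_V, Finset.sum_range_one, coeff_V_zero, sub_zero]
      exact this
    have hvn : Summable (fun n => ‖coeff n v‖) :=
      Summable.of_nonneg_of_le (fun _ => norm_nonneg _) hv2 hVs.summable
    have hs : ‖∑' n, coeff n v‖ ≤ (1 - x)⁻¹ := by
      refine (norm_tsum_le_tsum_norm hvn).trans ?_
      rw [← hVs.tsum_eq]
      exact hvn.tsum_le_tsum hv2 hVs.summable
    set s := ∑' n, coeff n v with hsdef
    have hIs := hasSum_IT l T
    set A := ∑ S ∈ T.powerset, aS l S with hA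
    have hIn : Summable (fun n => ‖coeff n (IT l T)‖) := summable_norm_iff.2 hIs.summable
    have hprod : HasSum (fun n => coeff n (IT l T * v)) (A * s) := by
      have e := tsum_mul_tsum_eq_tsum_sum_antidiagonal_of_summable_norm hIn hvn
      have e' := (summable_norm_sum_mul_antidiagonal_of_summable_norm hIn hvn).of_norm
      rw [hIs.tsum_eq, ← hsdef] at e
      rw [e]
      simp only [coeff_mul]
      exact e'.hasSum
    have hI := IT_insert l T k hk
    rw [← hv1, ← hc] at hI
    have hfin := hasSum_IT l (insert k T)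
    rw [hI] at hfin
    have hfin2 : HasSum (fun n => coeff n (IT l T - C c * (IT l T * v))) (A - c * (A * s)) := by
      simp only [map_sub, coeff_C_mul]
      exact hIs.sub (hprod.mul_left c)
    rw [hfin.unique hfin2]
    have e : A - c * (A * s) = A * (1 - c * s) := by ring
    rw [e, norm_mul]
    have h1x : 0 < 1 - x := by linarith
    have hcs : ‖c * s‖ ≤ ‖c‖ * (1 - x)⁻¹ := by
      rw [norm_mul]; exact mul_le_mul_of_nonneg_left hs hc0
    have h2 : 1 - ‖c‖ * (1 - x)⁻¹ ≤ ‖1 - c * s‖ := by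
      have := norm_sub_norm_le (1 : ℂ) (c * s)
      rw [norm_one] at this
      linarith
    have h3 : 0 ≤ 1 - ‖c‖ * (1 - x)⁻¹ := by
      rw [sub_nonneg, ← div_eq_mul_inv, div_le_one h1x]
      linarith
    calc 1 - (‖c‖ + x) = (1 - x) * (1 - ‖c‖ * (1 - x)⁻¹) := by
          field_simp; ring
      _ ≤ ‖A‖ * ‖1 - c * s‖ := mul_le_mul ih' h2 h3 (norm_nonneg _)

theorem t_AI1 : S_AI1 := by
  intro K l B hB
  exact bound l B hB

end Pool.Agent.H190.BV
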